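import Pool.Agent.R110.MT.Sym

/-!
# The symmetry `W_{n,i} = W_{n,3n+3-i}`

`W_{n,i}` is the value of the monotone triangle polynomial `α (2n + 1; ·)` at the row
`(i, 2, ..., n + 1, 1, ..., n)`. We prove `W_{n,i} = W_{n,3n+3-i}` for all integers `i`.

Idea of proof. The polynomial is invariant under translation and reflection of the row, and it
satisfies the rotation rule `α (N; k_1, ..., k_N) = (-1)^(N-1) α (N; k_2, ..., k_N, k_1 - N)`. The
rotation rule is proved here with the antisymmetriser form of the polynomial: the elementary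
symmetric polynomials of positive degree lie in the kernel of the antisymmetriser functional, and
modulo the kernel the product of the pair factors of the first variable with the others is
exchanged with the product of the pair factors of the last variable.
-/

namespace Pool.Agent.Results.MP_16be1b_co.WSymmetry

open Pool.Agent.R110.MT (IsAlpha)

/-- the row `(i, 2, ..., n + 1, 1, ..., n)` of length `2 n + 1` -/
def row (n : ℕ) (i : ℤ) (j : Fin (2 * n + 1)) : ℤ :=
  if (j : ℕ) = 0 then i else if (j : ℕ) ≤ n then (j : ℤ) + 1 else (j : ℤ) - n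

theorem result (n : ℕ) (i : ℤ) :
    ∃ P : MvPolynomial (Fin (2 * n + 1)) ℚ, IsAlpha (2 * n + 1) P ∧
      (∀ P' : MvPolynomial (Fin (2 * n + 1)) ℚ, IsAlpha (2 * n + 1) P' → P' = P) ∧
      MvPolynomial.eval (fun j => (row n i j : ℚ)) P =
        MvPolynomial.eval (fun j => (row n (3 * n + 3 - i) j : ℚ)) P := by
  obtain ⟨P, hP, -⟩ := Pool.Agent.R110.MT.exists_alpha (2 * n + 1)
  exact ⟨P, hP, fun P' hP' => hP.unique hP', Pool.Agent.R110.MT.wrow_symm hP i⟩

end Pool.Agent.Results.MP_16be1b_co.WSymmetry
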